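import Pool.Agent.Run7.h104.AC.Defs

set_option autoImplicit false

namespace Pool.Agent.Run7.h713.AC

open MeasureTheory Complex Set Filter Topology Metric
open Pool.Agent.Run7.h104.AC

theorem hasDerivAt_Cd (t : ℂ) : HasDerivAt Cd (1 + t) t := by
  have h1 : HasDerivAt (fun t : ℂ => t + t ^ 2 / 2) (1 + ((2 : ℕ) * t ^ (2 - 1)) / 2) t :=
    (hasDerivAt_id t).add ((hasDerivAt_pow 2 t).div_const 2)
  have h3 : (1 + ((2 : ℕ) * t ^ (2 - 1)) / 2 : ℂ) = 1 + t := by
    norm_num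
  rw [h3] at h1
  exact h1

theorem deriv_Cd : deriv Cd = fun t : ℂ => 1 + t := by
  funext t
  exact (hasDerivAt_Cd t).deriv

theorem a2_Cd : a2 Cd = 1 / 2 := by
  unfold a2
  rw [deriv_Cd]
  have h : deriv (fun t : ℂ => 1 + t) 0 = 1 := by
    simp
  rw [h]

theorem isS_Cd (h : S_RHO) : IsS Cd := by
  refine ⟨fun t _ => (hasDerivAt_Cd t).differentiableAt.differentiableWithinAt, h.1, ?_, ?_⟩
  · simp [Cd]
  · rw [deriv_Cd]; simp

theorem t_FINAL (hR : S_RED) (hA : S_AREA) (hO : S_RHO) : S_FINAL := by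
  have hpi := Real.pi_pos
  constructor
  · refine ⟨Real.sqrt_nonneg _, ?_⟩
    intro f hf hfin
    obtain ⟨h2, h27⟩ := hR f hf hfin
    set A : ℝ := (volume (f '' ball (0 : ℂ) 1)).toReal with hAdef
    have hA0 : 0 ≤ A := ENNReal.toReal_nonneg
    have hpos : 0 < A := by
      rcases hA0.lt_or_eq with h | h
      · exact h
      · exfalso
        rw [← h] at h27
        have : 0 < 27 * Real.pi / 8 := by positivity
        linarith
    have hrp : A ^ (-(1 / 2) : ℝ) = (Real.sqrt A)⁻¹ := by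
      rw [Real.rpow_neg hA0, ← Real.sqrt_eq_rpow]
    rw [hrp]
    have hs : 0 < Real.sqrt A := Real.sqrt_pos.mpr hpos
    have h3 : Real.sqrt (27 * Real.pi / 8) ≤ (2 - ‖a2 f‖) * Real.sqrt A := by
      apply Real.sqrt_le_iff.mpr
      constructor
      · have : 0 < 2 - ‖a2 f‖ := by linarith
        positivity
      · rw [mul_pow, Real.sq_sqrt hA0]
        exact h27
    have h4 : Real.sqrt (27 * Real.pi / 8) * (Real.sqrt A)⁻¹ ≤ 2 - ‖a2 f‖ := by
      rw [← div_eq_mul_inv, div_le_iff₀ hs]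
      exact h3
    linarith
  · intro c hc
    obtain ⟨_, hc2⟩ := hc
    have hvol : volume (Cd '' ball (0 : ℂ) 1) = ENNReal.ofReal (3 * Real.pi / 2) := hA.2.1
    have h1 := hc2 Cd (isS_Cd hO) (by rw [hvol]; exact ENNReal.ofReal_ne_top)
    rw [hvol, ENNReal.toReal_ofReal (by positivity), a2_Cd] at h1
    have hn : ‖(1 / 2 : ℂ)‖ = 1 / 2 := by
      simp
    rw [hn] at h1
    have hB : (0 : ℝ) ≤ 3 * Real.pi / 2 := by positivity
    have hrp : (3 * Real.pi / 2) ^ (-(1 / 2) : ℝ) = (Real.sqrt (3 * Real.pi / 2))⁻¹ := by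
      rw [Real.rpow_neg hB, ← Real.sqrt_eq_rpow]
    rw [hrp] at h1
    have hs : 0 < Real.sqrt (3 * Real.pi / 2) := Real.sqrt_pos.mpr (by positivity)
    have h2 : c * (Real.sqrt (3 * Real.pi / 2))⁻¹ ≤ 3 / 2 := by linarith
    rw [← div_eq_mul_inv, div_le_iff₀ hs] at h2
    apply Real.le_sqrt_of_sq_le
    by_cases hc0 : 0 ≤ c
    · calc c ^ 2 ≤ (3 / 2 * Real.sqrt (3 * Real.pi / 2)) ^ 2 := by
            apply pow_le_pow_left₀ hc0 h2
        _ = 27 * Real.pi / 8 := by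
            rw [mul_pow, Real.sq_sqrt hB]
            ring
    · exact absurd (by assumption) hc0

end Pool.Agent.Run7.h713.AC
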