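import Pool.Agent.Run7.h104.AC.Defs

set_option autoImplicit false

namespace Pool.Agent.Run7.h713.AC

open MeasureTheory Complex Set Filter Topology Metric
open Pool.Agent.Run7.h104.AC

theorem t_MAIN (hCV : S_CV) (hBT : S_BT) (hRHO : S_RHO) (hAREA : S_AREA) (hGR : S_GR)
    (hNB : S_NB) (hLOWR : S_LOWR) : S_MAIN := by
  intro R0 β F hU
  obtain ⟨hCdinj, hrho, hrho1, hrhoge, hUm, hrm, _⟩ := hRHO
  obtain ⟨hGm, hGv, hMm, hMlim⟩ := hAREA
  obtain ⟨C, η0, hC, hη0, hN⟩ := hNB R0 β F hU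
  rw [← hGv]
  have key : ∀ ε : ℝ, 0 < ε →
      volume G ≤ volume (F '' ball (0 : ℂ) 1) + ENNReal.ofReal ε + ENNReal.ofReal ε := by
    intro ε hε
    have h1 := hLOWR R0 β F hU ε hε
    have h2 : ∀ᶠ η in 𝓝[>] (0 : ℝ), volume (Cd '' Mset η) < ENNReal.ofReal ε :=
      hMlim.eventually_lt_const (by simpa using hε)
    have h3 : ∀ᶠ η in 𝓝[>] (0 : ℝ), 0 < η ∧ η < η0 := by
      have : Ioo (0 : ℝ) η0 ∈ 𝓝[>] (0 : ℝ) := Ioo_mem_nhdsGT hη0
      filter_upwards [this] with η hη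
      exact ⟨hη.1, hη.2⟩
    obtain ⟨η, ha, hb, hc⟩ := (h1.and (h2.and h3)).exists
    obtain ⟨hNsub, hNm, _, _, _⟩ := hN η hc.1 hc.2
    have hEsub : ball (0 : ℂ) 1 \ Nset F η ⊆ ball (0 : ℂ) R0 := by
      intro z hz
      exact ball_subset_ball hU.hR.le hz.1
    have hEm : MeasurableSet (ball (0 : ℂ) 1 \ Nset F η) := measurableSet_ball.diff hNm
    have hXm := (hCV (ball 0 R0) F isOpen_ball hU.hF hU.inj _ hEsub hEm).1
    have hdis : Disjoint (F '' (ball (0 : ℂ) 1 \ Nset F η)) (Cd '' Mset η) := by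
      rw [Set.disjoint_left]
      rintro w ⟨z, hz, rfl⟩ hw
      exact hz.2 ⟨hz.1, hw⟩
    have hGR' := hGR η hc.1
    have hbt := hBT (fun w => ENNReal.ofReal (rho w)) G (F '' (ball (0 : ℂ) 1 \ Nset F η))
      (Cd '' Mset η) (ENNReal.ofReal ε) (ENNReal.measurable_ofReal.comp hrm) hGm hXm (hMm η).2
      hdis (fun w hw => by simp [hrho1 w hw]) (fun w => by
        rw [← ENNReal.ofReal_one]
        exact ENNReal.ofReal_le_ofReal (hrhoge w))
      (by rw [hGR']; exact ha) (by rw [hGR']; exact ENNReal.ofReal_ne_top)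
    have hXle : volume (F '' (ball (0 : ℂ) 1 \ Nset F η)) ≤ volume (F '' ball (0 : ℂ) 1) :=
      measure_mono (image_mono (fun z hz => hz.1))
    calc volume G ≤ volume (G \ Cd '' Mset η ∪ Cd '' Mset η) := by
          apply measure_mono
          intro w hw
          by_cases h : w ∈ Cd '' Mset η
          · exact Or.inr h
          · exact Or.inl ⟨hw, h⟩
      _ ≤ volume (G \ Cd '' Mset η) + volume (Cd '' Mset η) := measure_union_le _ _
      _ ≤ (volume (F '' (ball (0 : ℂ) 1 \ Nset F η)) + ENNReal.ofReal ε) + ENNReal.ofReal ε :=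
          add_le_add hbt hb.le
      _ ≤ _ := by gcongr
  have key2 : ∀ ε : ℝ, 0 < ε → volume G ≤ volume (F '' ball (0 : ℂ) 1) + ENNReal.ofReal ε := by
    intro ε hε
    have h := key (ε / 2) (by positivity)
    rw [add_assoc, ← ENNReal.ofReal_add (by positivity) (by positivity), add_halves] at h
    exact h
  apply ENNReal.le_of_forall_pos_le_add
  intro ε hε _
  have h := key2 (ε : ℝ) (by exact_mod_cast hε)
  rwa [ENNReal.ofReal_coe_nnreal] at h

end Pool.Agent.Run7.h713.AC
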